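import Pool.Agent.Lib.MP_bc213e_ag.SB.U.UQ
import Pool.Agent.Lib.MP_bc213e_ag.SB.Defs
import Pool.Agent.Lib.MP_bc213e_ag.KL.T.Main

/-! The base of the fibration is the field generated by `k` and `θ u`. -/

namespace Pool.Agent.Lib.MP_bc213e_ag.SB.U

open Pool.Agent.Lib.MP_bc213e_ag.Hyp Pool.Agent.Lib.MP_bc213e_ag.DD Module
open scoped TensorProduct

theorem alg_of_le {A : Type} [Field A] [Algebra ℂ A] {k₁ k₂ : IntermediateField ℂ A} (h : k₁ ≤ k₂)
    {b : ℕ} (h1 : Algebra.trdeg ℂ k₁ = b) (h2 : Algebra.trdeg ℂ k₂ ≤ b) {f : A} (hf : f ∈ k₂) :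
    IsAlgebraic k₁ f := by
  have h3 : _ = Algebra.trdeg ℂ k₂ := trdeg_add_eq ℂ k₁ (A := IntermediateField.extendScalars h)
  rw [← h3, h1] at h2
  have h4 := trdeg_eq_zero_iff.1 (le_zero_iff.1 ((Cardinal.add_le_add_iff_of_lt_aleph0
    (Cardinal.natCast_lt_aleph0 (n := b))).1 ((add_comm _ _).trans_le
      (h2.trans_eq (zero_add _).symm))))
  exact IntermediateField.isAlgebraic_iff.1 (h4.isAlgebraic ⟨f, hf⟩)

variable {K M ι : Type} [Field K] [Algebra ℂ K] [Field M] [Algebra ℂ M] [Algebra K M]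
  [IsScalarTower ℂ K M]

theorem exists_L (k : IntermediateField ℂ K) {b : ℕ} (hb : Algebra.trdeg ℂ k = b) (T : M) :
    ∃ L : IntermediateField ℂ M, T ∈ L ∧ (∀ c ∈ k, algebraMap K M c ∈ L) ∧
      Algebra.trdeg ℂ L ≤ (b + 1 : ℕ) ∧ ∀ f, IsAlgebraic L f → f ∈ L := by
  obtain ⟨b', z, hz⟩ := DA.exists_finTB ℂ k (hb ▸ Cardinal.natCast_lt_aleph0)
  obtain rfl : b' = b := by
    have := hz.cardinalMk_eq_trdeg
    rw [hb, Cardinal.mk_fin] at this
    exact_mod_cast this
  let φ : k →ₐ[ℂ] M := (IsScalarTower.toAlgHom ℂ K M).comp k.val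
  let y : Fin (b' + 1) → M := Fin.cons T fun i => φ (z i)
  let F := IntermediateField.adjoin ℂ (Set.range y)
  refine ⟨(algebraicClosure F M).restrictScalars ℂ, mem_algebraicClosure_iff.2
    (isAlgebraic_algebraMap (⟨T, IntermediateField.subset_adjoin _ _ ⟨0, rfl⟩⟩ : F)),
    fun c hc => mem_algebraicClosure_iff.2 ?_, ?_, fun f hf => mem_algebraicClosure_iff.2
      ((show IsAlgebraic (algebraicClosure F M) f from hf).restrictScalars F)⟩
  · have h : ∀ r ∈ Algebra.adjoin ℂ (Set.range z), φ r ∈ F := fun r hr =>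
      (Algebra.adjoin_le (S := F.toSubalgebra.comap φ) (by
        rintro _ ⟨i, rfl⟩
        exact IntermediateField.subset_adjoin ℂ (Set.range y) ⟨i.succ, rfl⟩)) hr
    exact (hz.isAlgebraic.isAlgebraic ⟨c, hc⟩).ringHom_of_comp_eq
      ((φ.toRingHom.comp (Subalgebra.val _).toRingHom).codRestrict F fun r => h r r.2) φ.toRingHom
      (fun a b hab => Subtype.ext (φ.injective (congrArg Subtype.val hab))) rfl
  · rw [← IntermediateField.adjoin_self ℂ ((algebraicClosure F M).restrictScalars ℂ)]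
    exact KBD.trdeg_le y fun f hf => mem_algebraicClosure_iff.1 hf

variable {n : ℕ} {S : DD.Su K M ι n} {k : IntermediateField ℂ K} {θ : K}

theorem st_mem_V {t m a : ℕ} (h : t ≤ m) {f : K} (hf : f ∈ ST S.x S.g θ t a) :
    algebraMap K M f * (algebraMap K M θ * S.u) ^ t ∈ S.V m a := by
  rw [mul_pow, ← mul_assoc, ← map_pow, ← map_mul]
  exact S.sec_mem_V h hf

theorem U_le_span (h0 : θ ≠ 0) {L : IntermediateField ℂ M} (hT : algebraMap K M θ * S.u ∈ L)
    (a : ℕ) {f : M} (hf : f ∈ S.U a) :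
    f ∈ Submodule.span L (algebraMap K M '' VV S.x S.g k θ a) := by
  obtain ⟨m, hm⟩ := S.exists_V hf
  refine (Submodule.span_le (p := (Submodule.span L
    (algebraMap K M '' VV S.x S.g k θ a)).restrictScalars ℂ)).2 ?_ (S.V_le_span m a hm)
  rintro _ ⟨i, s, -, hs, rfl⟩
  have h1 : s / θ ^ i ∈ ST S.x S.g θ i a := by
    rwa [mem_ST, div_mul_cancel₀ _ (pow_ne_zero _ h0)]
  have h2 := Submodule.smul_mem (Submodule.span L (algebraMap K M '' VV S.x S.g k θ a))
    (⟨_, hT⟩ ^ i) (Submodule.subset_span ⟨_, Submodule.subset_span ⟨i, h1⟩, rfl⟩)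
  have h3 : algebraMap K M θ ≠ 0 := (map_ne_zero _).2 h0
  have h4 : algebraMap K M s * S.u ^ i =
      (algebraMap K M θ * S.u) ^ i * algebraMap K M (s / θ ^ i) := by
    rw [map_div₀, map_pow, mul_pow]
    field_simp
  exact h4 ▸ h2

variable [Fintype ι] {Ω E : Type} [Field Ω] [Algebra ℂ Ω] [Field E] [Algebra ℂ E] [Algebra Ω E]
  [IsScalarTower ℂ Ω E] {b φ : ℕ} (G : Geo S Ω E b φ) [CharZero E]

theorem k_alg (h0 : θ ≠ 0) (fd : ∀ a, FiniteDimensional k (VV S.x S.g k θ a))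
    {L : IntermediateField ℂ M} (hT : algebraMap K M θ * S.u ∈ L)
    (hk : ∀ c ∈ k, algebraMap K M c ∈ L) {f : M} (hf : f ∈ G.k) : IsAlgebraic L f := by
  let P : Pre S L M :=
    { ι := AlgHom.id ℂ M
      frac := fun z => ⟨1 ⊗ₜ z, 1, by simp, by simp⟩
      bd := fun a _ => by
        have := fd a
        have := (rk_span (F' := L) (algebraMap K M).toAddMonoidHom
          (fun c : k => ⟨⟨_, hk c c.2⟩, fun g => map_mul (algebraMap K M) (c : K) g⟩)
          (VV S.x S.g k θ a)).1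
        rw [map_baseChange]
        refine Submodule.finiteDimensional_of_le (S₂ := Submodule.span L
          ((algebraMap K M).toAddMonoidHom '' VV S.x S.g k θ a)) (Submodule.span_le.2 ?_)
        rintro _ ⟨g, hg, rfl⟩
        exact U_le_span h0 hT a hg }
  obtain ⟨d, hd⟩ := P.trdeg_E
  refine alg_of_bd G.toFib P.X (fun o => P.ι (S.gen S.i₀ o)) (fun o => ?_) (P.gen_E S.i₀) hd
    (fun a g hg => P.R_le_Bd a (P.ι_mem_R hg)) hf
  obtain ⟨N, hN⟩ := P.homog (P.ι_mem_C (S.gen_mem S.i₀ o))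
  exact ⟨N, P.R_le_Bd N (by simpa only [P.X_one, one_pow, one_mul] using hN N le_rfl)⟩

theorem base [IsAlgClosed Ω] (hb : 3 ≤ b) (dim : Algebra.trdeg ℂ k ≤ 2) (h0 : θ ≠ 0)
    (fd : ∀ a, FiniteDimensional k (VV S.x S.g k θ a)) :
    b = 3 ∧ Algebra.trdeg ℂ k = 2 ∧ algebraMap K M θ * S.u ∈ G.k ∧
      ∀ c ∈ k, algebraMap K M c ∈ G.k := by
  obtain ⟨d, hd⟩ := Cardinal.lt_aleph0.1 (dim.trans_lt (Cardinal.natCast_lt_aleph0 (n := 2)))
  obtain ⟨L, h1, h2, h3, h4⟩ := exists_L k hd (algebraMap K M θ * S.u)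
  have h5 : G.k ≤ L := fun f hf => h4 f (k_alg G h0 fd h1 h2 hf)
  have h6 := (trdeg_le_of_injective _ (IntermediateField.inclusion_injective h5)).trans h3
  rw [G.trdeg_k, Nat.cast_le] at h6
  have h7 : d ≤ 2 := by exact_mod_cast hd ▸ dim
  have h8 : L ≤ G.k := fun f hf => G.toFib.closed
    (alg_of_le h5 G.trdeg_k (h3.trans (Nat.cast_le.2 (by omega))) hf)
  refine ⟨by omega, ?_, h8 h1, fun c hc => h8 (h2 c hc)⟩
  rw [hd, show d = 2 by omega]
  rfl

omit [Fintype ι] [CharZero E] in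
theorem rank_le (hb : b ≤ 3) (dim : Algebra.trdeg ℂ k = 2)
    (closed : ∀ e : K, IsAlgebraic k e → e ∈ k) (h0 : θ ≠ 0)
    (fd : ∀ a, FiniteDimensional k (VV S.x S.g k θ a)) (hT : algebraMap K M θ * S.u ∈ G.k)
    (hk : ∀ c ∈ k, algebraMap K M c ∈ G.k) (a : ℕ) :
    finrank k (VV S.x S.g k θ a) ≤ finrank Ω (G.R a) := by
  obtain ⟨w, hK, h1, res⟩ := DS.exists_val S.tr S.top
  have T0 : algebraMap K M θ * S.u ≠ 0 := mul_ne_zero ((map_ne_zero _).2 h0) S.u_ne
  have h2 := DS.trdeg_res hK G.k hT T0 (by rwa [map_mul, hK _ h0, one_mul])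
  replace h2 := h2.trans (G.trdeg_k.le.trans (Nat.cast_le.2 hb))
  rw [Nat.cast_succ, Cardinal.add_one_le_add_one_iff] at h2
  have h3 : k ≤ DS.resField hK G.k := fun c hc => (DS.mem_resField hK).2 ⟨_, hk c hc, by simp⟩
  have h4 : k = DS.resField hK G.k :=
    le_antisymm h3 fun c hc => closed c (alg_of_le h3 (b := 2) dim h2 hc)
  have h5 : ∀ f ∈ VV S.x S.g k θ a, G.ι (algebraMap K M f) ∈ G.R a := fun f hf => by
    induction hf using Submodule.span_induction with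
    | mem f hf =>
      obtain ⟨t, hf⟩ := hf
      have h6 := Submodule.smul_mem _ (G.e ((algebraMap K M θ * S.u) ^ t)⁻¹)
        (G.ι_mem_R (S.V_le_U t a (st_mem_V le_rfl hf)))
      rwa [Algebra.smul_def, ← G.toFib.ι_k (inv_mem (pow_mem hT t)), ← map_mul, mul_comm,
        mul_inv_cancel_right₀ (pow_ne_zero _ T0)] at h6
    | zero => simp
    | add f g _ _ hf hg => simpa only [map_add] using add_mem hf hg
    | smul c f _ hf =>
      rw [IntermediateField.smul_def, smul_eq_mul, map_mul, map_mul, G.toFib.ι_k (hk c c.2),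
        ← Algebra.smul_def]
      exact Submodule.smul_mem _ _ hf
  have := G.fd_R a
  have := fd a
  let β := Module.finBasis k (VV S.x S.g k θ a)
  have h6 : LinearIndependent k fun i => (β i : K) :=
    β.linearIndependent.map' (Submodule.subtype _) (Submodule.ker_subtype _)
  have h8 : ∀ s : Fin (finrank k (VV S.x S.g k θ a)) → K, LinearIndependent k s →
      LinearIndependent (DS.resField hK G.k) s := fun s hs => h4 ▸ hs
  have h7 := G.toFib.indep (DS.indep_res hK res G.k (h8 _ h6))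
  simpa using (LinearIndependent.of_comp (v := fun i => (⟨_, h5 _ (β i).2⟩ : G.R a))
    (G.R a).subtype h7).fintype_card_le_finrank

end Pool.Agent.Lib.MP_bc213e_ag.SB.U
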