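import Pool.Agent.Lib.MP_bc213e_ag.SB.U.Cnt

/-! Uniqueness of the fibration and the comparison of sections in a subspace. -/

namespace Pool.Agent.Lib.MP_bc213e_ag.SB

open Pool.Agent.Lib.MP_bc213e_ag.Hyp Pool.Agent.Lib.MP_bc213e_ag.KBB Filter Module Polynomial

variable {K M ι : Type} [Field K] [Algebra ℂ K] [Field M] [Algebra ℂ M] [Algebra K M]
  [IsScalarTower ℂ K M] [Fintype ι] {n : ℕ} (S : DD.Su K M ι n) {P : ℚ[X][X]}

theorem mu_or (hd : S.d₀ = n - 1) (hk : S.VK 1) (deg : P.natDegree ≤ 1) (lead : P.coeff 1 ≠ 0)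
    (hilbert : ∀ t : ℕ, ∀ᶠ a : ℕ in atTop,
      (finrank ℂ (SecS S.x S.g t a) : ℚ) = P.evalEval (a : ℚ) (t : ℚ))
    (k : IntermediateField ℂ K) (dim : Algebra.trdeg ℂ k ≤ 2)
    (closed : ∀ e : K, IsAlgebraic k e → e ∈ k) {θ : K} (h0 : θ ≠ 0)
    (fd : ∀ a, FiniteDimensional k (VV S.x S.g k θ a)) :
    (∃ t : ℕ, 0 < t ∧ ∃ f, f ≠ 0 ∧ Sec S.x S.g t 0 f) ∨
      (Algebra.trdeg ℂ k = 2 ∧ ∃ a₁, ∀ a, a₁ ≤ a → ∀ j : ℕ, 0 < j → ∀ U : Submodule k K,
        U ≤ VV S.x S.g k θ (j * a) → ∀ e c : ℚ,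
          (∀ t : ℕ, t * e - c ≤ finrank ℂ ↥(ST S.x S.g θ t (j * a) ⊓ U.restrictScalars ℂ)) →
            finrank k (VV S.x S.g k θ a) * e ≤ finrank k U * j * (P.coeff 1).eval (a : ℚ)) := by
  obtain ⟨a₀, hP⟩ := S.unif hilbert
  obtain ⟨Ω, _, _, _, hΩ⟩ := DD.exists_univ
  obtain ⟨E, _, _, _, _, b, φ, ⟨G⟩⟩ := DD.exists_geo S Ω hΩ
  have : CharZero E := charZero_of_injective_algebraMap (algebraMap ℂ E).injective
  rcases le_or_gt b 2 with hb | hb
  · obtain ⟨a, c, -, hc0, big⟩ := DD.num_big P deg lead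
      (fun t a => finrank ℂ (SecS S.x S.g t a)) a₀ hP
    have := G.toFib.fd_k a.succ_pos
    obtain ⟨δ, h1, h2⟩ := DS.endgame S.frac S.norm S.one S.cart S.nef
      ((TCI.trdeg_eq_card S.τ S.hτ).trans (by rw [Fintype.card_fin])) S.u S.tr S.top G.k (ν := 1)
      (G.trdeg_k.le.trans (Nat.cast_le.2 hb)) a (Submodule.finiteDimensional_of_le
        (S₂ := Submodule.span G.k (S.U (a + 1) : Set M)) (Submodule.span_mono (by
          rintro _ ⟨i, s, hs, rfl⟩
          exact S.U_mono a.le_succ (S.V_le_U i a (S.sec_mem_V le_rfl hs))))) hc0 big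
    obtain ⟨t, h3, h4⟩ := (h2.and_eventually (eventually_gt_atTop 0)).exists
    have h5 : SecS S.x S.g t 0 ≠ ⊥ := fun e => by
      rw [e, finrank_bot, Nat.cast_zero] at h3
      exact h3.not_gt (by positivity)
    obtain ⟨f, h6, h7⟩ := Submodule.exists_mem_ne_zero_of_ne_bot h5
    exact Or.inl ⟨t, h4, f, h7, h6⟩
  obtain ⟨rfl, h1, hT, h2⟩ := U.base G hb dim h0 fd
  obtain ⟨a₁, h3⟩ := U.ncard_cmp G hd hk le_rfl
  refine Or.inr ⟨h1, a₀ + a₁, fun a ha j hj U hU e c h => ?_⟩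
  have := fd (j * a)
  have := Submodule.finiteDimensional_of_le hU
  have h4 := SB.U.rank_le G le_rfl h1 closed h0 fd hT h2 a
  have h5 : (j : ℚ) ^ 2 * (finrank k (VV S.x S.g k θ a) * e) ≤
      (j : ℚ) ^ 2 * (finrank k U * j * (P.coeff 1).eval (a : ℚ)) := by
    refine DD.num_lim (b := 6) fun s hs => ?_
    have h6 := DD.num_lead (p := C e * X - C c) (p' := P.map (evalRingHom (a : ℚ))) (ν := 1)
      (by compute_degree) (natDegree_map_le.trans deg) (k := j) (k' := 1)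
      (c := (finrank k (VV S.x S.g k θ a) : ℚ) * ((s : ℚ) ^ 2) ^ 3)
      (c' := (finrank k U : ℚ) * ((j : ℚ) * ((s : ℚ) + 1) ^ 2) ^ 3)
      ((h3 a (by omega) j s hj hs).mono fun m hm => by
        have h7 := SB.U.sum_le G h0 hT h2 U (j * m) (j * a)
        have h8 : (∑ i ∈ Finset.range (j * m + 1),
            finrank ℂ ↥(ST S.x S.g θ i (j * a) ⊓ U.restrictScalars ℂ)) *
              (finrank k (VV S.x S.g k θ a) * (s ^ 2) ^ 3) ≤
            finrank ℂ (S.V m a) * (finrank k U * (j * (s + 1) ^ 2) ^ 3) :=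
          calc _ ≤ {α | G.W (j * m) (j * a) α ≠ ⊥}.ncard * finrank k U *
                (finrank Ω (G.R a) * (s ^ 2) ^ 3) := by gcongr
            _ = {α | G.W (j * m) (j * a) α ≠ ⊥}.ncard * finrank Ω (G.R a) * (s ^ 2) ^ 3 *
                finrank k U := by ring
            _ ≤ finrank ℂ (S.V m a) * (j * (s + 1) ^ 2) ^ 3 * finrank k U := by gcongr
            _ = _ := by ring
        rw [S.finrank_V] at h8
        simp only [map_evalRingHom_eval, ← hP _ a (by omega), one_mul]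
        have h9 := (Nat.cast_le (α := ℚ)).2 h8
        push_cast at h9
        refine le_trans (mul_le_mul_of_nonneg_right (Finset.sum_le_sum fun i _ => ?_)
          (by positivity)) h9
        rw [eval_sub, eval_mul, eval_C, eval_C, eval_X, mul_comm]
        exact h i)
    rw [coeff_map, coe_evalRingHom, coeff_sub, coeff_C_mul, coeff_X_one, coeff_C_succ] at h6
    push_cast at h6
    linarith
  exact le_of_mul_le_mul_left h5 (by positivity)

end Pool.Agent.Lib.MP_bc213e_ag.SB
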