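import Pool.Agent.Lib.MP_bc213e_ag.SB.U.RK

/-! Counting the sections in a subspace. -/

namespace Pool.Agent.Lib.MP_bc213e_ag.SB.U

open Pool.Agent.Lib.MP_bc213e_ag.Hyp Pool.Agent.Lib.MP_bc213e_ag.DD Module Filter
open scoped TensorProduct

variable {K M ι : Type} [Field K] [Algebra ℂ K] [Field M] [Algebra ℂ M] [Algebra K M]
  [IsScalarTower ℂ K M]

theorem exists_sum {T : M} (hT : Transcendental K T) (m : ℕ) (Z : ℕ → Submodule ℂ K)
    (fd : ∀ i, FiniteDimensional ℂ (Z i)) : ∃ Y : Submodule ℂ M,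
      finrank ℂ Y = ∑ i ∈ Finset.range (m + 1), finrank ℂ (Z i) ∧
      Y ≤ Submodule.span ℂ {f | ∃ i ≤ m, ∃ s ∈ Z i, f = algebraMap K M s * T ^ i} := by
  let L : (∀ i : Fin (m + 1), Z i) →ₗ[ℂ] M :=
    { toFun := fun s => ∑ i, algebraMap K M (s i) * T ^ (i : ℕ)
      map_add' := fun s t => by
        simp only [Pi.add_apply, Submodule.coe_add, map_add, add_mul, Finset.sum_add_distrib]
      map_smul' := fun c s => by
        simp only [Pi.smul_apply, Submodule.coe_smul, RingHom.id_apply, Finset.smul_sum,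
          algebraMap.smul, smul_mul_assoc] }
  have hi : Function.Injective L := (injective_iff_map_eq_zero L).2 fun s hs => by
    have h1 : ∑ i : Fin (m + 1), Polynomial.monomial (i : ℕ) (s i : K) = 0 := by
      refine transcendental_iff.1 hT _ ?_
      rw [map_sum]
      simp only [Polynomial.aeval_monomial]
      exact hs
    funext i
    have h2 := congrArg (Polynomial.coeff · i) h1
    simp only [Polynomial.finsetSum_coeff, Polynomial.coeff_monomial, Fin.val_inj,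
      Finset.sum_ite_eq', Finset.mem_univ, if_true, Polynomial.coeff_zero] at h2
    exact Subtype.ext h2
  refine ⟨LinearMap.range L, ?_, ?_⟩
  · rw [LinearMap.finrank_range_of_inj hi, finrank_pi_fintype, Finset.sum_range]
  · rintro _ ⟨s, rfl⟩
    refine sum_mem (t := Finset.univ) fun (i : Fin (m + 1)) _ => Submodule.subset_span ?_
    exact ⟨i, Nat.lt_succ_iff.1 i.2, s i, (s i).2, rfl⟩

variable {n : ℕ} {S : DD.Su K M ι n} {k : IntermediateField ℂ K} {θ : K} [Fintype ι] {Ω E : Type}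
  [Field Ω] [Algebra ℂ Ω] [Field E] [Algebra ℂ E] [Algebra Ω E] [IsScalarTower ℂ Ω E] {b φ : ℕ}
  (G : Geo S Ω E b φ) [CharZero E]

theorem dim_le {m a : ℕ} {Y : Submodule ℂ M} (hY : Y ≤ S.V m a) (R : Submodule Ω E)
    [FiniteDimensional Ω R] (h : ∀ f ∈ Y, G.ι f ∈ R) :
    finrank ℂ Y ≤ {α | G.W m a α ≠ ⊥}.ncard * finrank Ω R := by
  have := S.fd_V m a
  have := Submodule.finiteDimensional_of_le hY
  have := Module.Finite.equiv (Submodule.toBaseChange.toLinearEquiv Ω Y)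
  have h1 : finrank Ω ((Y.baseChange Ω).map
      (tayL Ω G.ι (Comm.inl G.frame.comm)).toLinearMap) = finrank ℂ Y := by
    rw [← (Submodule.equivMapOfInjective _ (G.tayL_inj G.frame) _).finrank_eq,
      ← (Submodule.toBaseChange.toLinearEquiv Ω Y).finrank_eq, Module.finrank_baseChange]
  rw [← h1, ← Jet.sum_Wl_eq MonomialOrder.degLex _ (G.W_finite m a).toFinset fun α h0 => by
      rw [Set.Finite.mem_toFinset]
      exact fun e => h0 (le_bot_iff.1 ((Jet.Wl_mono _
        (Submodule.map_mono (Submodule.baseChange_mono Ω hY)) α).trans_eq e)),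
    Set.ncard_eq_toFinset_card _ (G.W_finite m a), ← smul_eq_mul]
  refine Finset.sum_le_card_nsmul _ _ _ fun α _ => Submodule.finrank_mono
    ((G.Wt_down G.frame Y (zero_le (a := α))).trans ((G.Wt_zero G.frame Y).le.trans ?_))
  rw [map_baseChange]
  exact Submodule.span_le.2 (Set.image_subset_iff.2 h)

omit [Algebra ℂ M] [IsScalarTower ℂ K M] in
theorem st_fd (h0 : θ ≠ 0) (t a : ℕ) : FiniteDimensional ℂ (ST S.x S.g θ t a) := by
  have := KBD.secS_fd S.cart S.nef S.i₀ t a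
  exact FiniteDimensional.of_injective ((LinearMap.mulRight ℂ (θ ^ t)).submoduleComap _)
    fun f g e => Subtype.ext (mul_right_cancel₀ (pow_ne_zero t h0) (congrArg Subtype.val e))

theorem sum_le (h0 : θ ≠ 0) (hT : algebraMap K M θ * S.u ∈ G.k)
    (hk : ∀ c ∈ k, algebraMap K M c ∈ G.k) (U : Submodule k K) [FiniteDimensional k U] (m a : ℕ) :
    ∑ i ∈ Finset.range (m + 1), finrank ℂ ↥(ST S.x S.g θ i a ⊓ U.restrictScalars ℂ) ≤
      {α | G.W m a α ≠ ⊥}.ncard * finrank k U := by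
  have h1 : Transcendental K (algebraMap K M θ * S.u) := fun h => S.tr (by
    have h2 := (isAlgebraic_algebraMap (A := M) θ⁻¹).mul h
    rwa [← mul_assoc, ← map_mul, inv_mul_cancel₀ h0, map_one, one_mul] at h2)
  obtain ⟨Y, h2, h3⟩ := exists_sum h1 m (fun i => ST S.x S.g θ i a ⊓ U.restrictScalars ℂ)
    fun i => by
      have := st_fd (S := S) h0 i a
      infer_instance
  obtain ⟨h4, h5⟩ := rk_span (F' := Ω) (G.ι.toRingHom.comp (algebraMap K M)).toAddMonoidHom
    (fun c : k => ⟨G.e (algebraMap K M c), fun g => by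
      change G.ι (algebraMap K M (c * g)) = _ • G.ι (algebraMap K M g)
      rw [map_mul, map_mul, G.toFib.ι_k (hk c c.2), Algebra.smul_def]⟩) U
  refine h2 ▸ (dim_le G (h3.trans (Submodule.span_le.2 ?_)) _ fun f hf => ?_).trans
    (Nat.mul_le_mul_left _ h5)
  · rintro _ ⟨i, hi, s, hs, rfl⟩
    exact st_mem_V hi hs.1
  · refine (Submodule.span_le (p := ((Submodule.span Ω ((G.ι.toRingHom.comp
      (algebraMap K M)).toAddMonoidHom '' U)).restrictScalars ℂ).comap G.ι.toLinearMap)).2 ?_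
      (h3 hf)
    rintro _ ⟨i, hi, s, hs, rfl⟩
    change G.ι _ ∈ Submodule.span Ω _
    rw [map_mul, G.toFib.ι_k (pow_mem hT i), mul_comm, ← Algebra.smul_def]
    exact Submodule.smul_mem _ _ (Submodule.subset_span ⟨s, hs.2, rfl⟩)

theorem ncard_cmp [IsAlgClosed Ω] (hd : S.d₀ = n - 1) {d : ℕ} (hk : S.VK d) (hb : d + 2 ≤ b) :
    ∃ a₁, ∀ a, a₁ ≤ a → ∀ j s : ℕ, 0 < j → 0 < s → ∀ᶠ m : ℕ in atTop,
      {α | G.W (j * m) (j * a) α ≠ ⊥}.ncard * finrank Ω (G.R a) * (s ^ 2) ^ b ≤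
        finrank ℂ (S.V m a) * (j * (s + 1) ^ 2) ^ b := by
  obtain ⟨a₁, h⟩ := G.geo_lowk hd hk hb
  refine ⟨a₁ + 1, fun a ha j s hj hs => ?_⟩
  obtain ⟨m₀, hc⟩ := G.cube s a (by omega)
  filter_upwards [eventually_ge_atTop m₀, h a s (by omega) hs] with m hm hl
  obtain ⟨k₀, hk₀, hc⟩ := hc m hm
  have e := DD.cmp (G.gam m a) (G.full_finite m a) hj one_pos hs hk₀ hc
    fun k w hk hw β hβ => hl k w hk hw β (by rwa [mul_one] at hβ)
  rw [one_mul] at e
  calc _ = {α | G.W (j * m) (j * a) α ≠ ⊥}.ncard * (s ^ 2) ^ b * finrank Ω (G.R a) := by ring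
    _ ≤ {α | G.W m a α = G.R a}.ncard * (j * (s + 1) ^ 2) ^ b * finrank Ω (G.R a) :=
      Nat.mul_le_mul_right _ e
    _ = {α | G.W m a α = G.R a}.ncard * finrank Ω (G.R a) * (j * (s + 1) ^ 2) ^ b := by ring
    _ ≤ _ := Nat.mul_le_mul_right _ (G.le_dim m a)

end Pool.Agent.Lib.MP_bc213e_ag.SB.U
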