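import Pool.Agent.Lib.MP_bc213e_ag.Jet.LemG
import Pool.Agent.Lib.MP_bc213e_ag.Jet.Tay

/-! A bound for the order of vanishing in a graded family of polynomial growth. -/

namespace Pool.Agent.Lib.MP_bc213e_ag.SB.U

open Pool.Agent.Lib.MP_bc213e_ag.Jet MvPowerSeries Module
open scoped MonomialOrder

theorem mult {E : Type} [Field E] {d B : ℕ} (A : ℕ → Submodule E (MvPowerSeries (Fin d) E))
    (mul : ∀ a b, ∀ φ ∈ A a, ∀ ψ ∈ A b, φ * ψ ∈ A (a + b)) (one : ∀ a, 1 ∈ A a)
    (hX : ∀ l, X l ∈ A 1) (fd : ∀ a, FiniteDimensional E (A a))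
    (dim : ∀ a, finrank E (A a) ≤ B * (a + 1) ^ d) :
    ∃ g, ∀ a, 0 < a → ∀ w ∈ A a, w ∈ Ord (Fin d) E (g * a) → w = 0 := by
  let Γ : ℕ → Set (Fin d →₀ ℕ) := fun a => {α | Wl MonomialOrder.degLex (A a) α ≠ ⊥}
  have mk : ∀ a α, ∀ w ∈ A a, w ∈ Fil MonomialOrder.degLex α → coeff α w ≠ 0 → α ∈ Γ a :=
    fun a α w h1 h2 h3 => (Submodule.ne_bot_iff _).2 ⟨_, (mem_Wl _).2 ⟨w, h1, h2, rfl⟩, h3⟩
  have add : ∀ a b α β, α ∈ Γ a → β ∈ Γ b → α + β ∈ Γ (a + b) := fun a b α β h h' => by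
    obtain ⟨w, hw, h0⟩ := Submodule.exists_mem_ne_zero_of_ne_bot h
    obtain ⟨w', hw', h0'⟩ := Submodule.exists_mem_ne_zero_of_ne_bot h'
    exact (Submodule.ne_bot_iff _).2 ⟨_, Wl_mul _ (mul a b) hw hw', mul_ne_zero h0 h0'⟩
  have zero : ∀ a, 0 ∈ Γ a := fun a => mk a 0 1 (one a) (mem_Fil_zero _ _) (by simp)
  have deg : ∀ β : Fin d →₀ ℕ, β ∈ Γ β.degree := fun β => by
    induction β using deg_ind with
    | h0 => exact zero _
    | h1 β i ih =>
      rw [map_add, Finsupp.degree_single]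
      refine add _ _ _ _ ih (mk 1 _ _ (hX i) (fun γ hγ => ?_) (by simp [coeff_index_single_self_X]))
      exact coeff_monomial_ne (fun e => by rw [e] at hγ; exact lt_irrefl _ hγ) _
  obtain ⟨I, hI⟩ : ∃ I, I = B * (d + 2) ^ d + 1 := ⟨_, rfl⟩
  refine ⟨d * I + 1, fun a ha w hw h => by_contra fun h0 => ?_⟩
  obtain ⟨α, h1, h2⟩ := exists_lead MonomialOrder.degLex h0
  have h3 : ∀ i : ℕ, i • α ∈ Γ (i * a) := fun i => by
    induction i with
    | zero => simpa using zero 0
    | succ i ih =>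
      rw [succ_nsmul, Nat.succ_mul]
      exact add _ _ _ _ ih (mk a α w hw h1 h2)
  obtain ⟨l, hl⟩ : ∃ l, I * a ≤ α l := by
    by_contra h4
    refine h2 (h α ?_)
    have h5 := Finset.sum_le_card_nsmul Finset.univ α (I * a) fun l _ =>
      (not_le.1 fun e => h4 ⟨l, e⟩).le
    rw [Finset.card_univ, Fintype.card_fin, smul_eq_mul, ← Finsupp.degree_eq_sum] at h5
    nlinarith
  have hp : 0 < α l := lt_of_lt_of_le (by rw [hI]; positivity) hl
  have := fd ((d + 1) * α l)
  have h4 := Set.ncard_le_ncard_of_injOn (s := Set.univ) (t := Γ ((d + 1) * α l))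
    (fun q : Fin I × (Fin d → Fin (α l)) =>
      (q.1 : ℕ) • α + Finsupp.equivFunOnFinite.symm fun j => (q.2 j : ℕ))
    (fun q _ => ?_) (fun q _ q' _ e => ?_) (Wl_finite _ _)
  · rw [Set.ncard_univ, Nat.card_eq_fintype_card, Fintype.card_prod, Fintype.card_fun,
      Fintype.card_fin, Fintype.card_fin, Fintype.card_fin, ncard_Wl] at h4
    have h5 := h4.trans ((dim _).trans (Nat.mul_le_mul_left B (Nat.pow_le_pow_left
      (show (d + 1) * α l + 1 ≤ (d + 2) * α l by nlinarith) d)))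
    rw [mul_pow, ← mul_assoc] at h5
    have h6 := Nat.le_of_mul_le_mul_right h5 (pow_pos hp d)
    omega
  · have h5 := add _ _ _ _ (h3 q.1) (deg (Finsupp.equivFunOnFinite.symm fun j => (q.2 j : ℕ)))
    have h6 := Finset.sum_le_card_nsmul Finset.univ (fun j => (q.2 j : ℕ)) (α l) fun j _ =>
      (q.2 j).2.le
    rw [Finset.card_univ, Fintype.card_fin, smul_eq_mul] at h6
    have h7 := Nat.mul_le_mul_right a q.1.2.le
    obtain ⟨c, hc⟩ := Nat.exists_eq_add_of_le (show q.1 * a + ∑ j, (q.2 j : ℕ) ≤ (d + 1) * α l by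
      nlinarith)
    rw [Finsupp.degree_eq_sum] at h5
    rw [hc]
    simpa using add _ _ _ _ h5 (zero c)
  · have h5 : (q.1 : ℕ) * α l + q.2 l = q'.1 * α l + q'.2 l := by
      simpa using DFunLike.congr_fun e l
    have h6 : (q.1 : ℕ) = q'.1 := by
      have h7 := congrArg (· / α l) h5
      simpa [mul_comm _ (α l), Nat.mul_add_div hp, Nat.div_eq_of_lt (q.2 l).2,
        Nat.div_eq_of_lt (q'.2 l).2] using h7
    refine Prod.ext (Fin.ext h6) (funext fun j => Fin.ext ?_)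
    simpa [h6] using DFunLike.congr_fun e j

/-- A semilinear map does not increase the rank. -/
theorem rk_span {F F' N N' : Type} [Field F] [Field F'] [AddCommGroup N] [AddCommGroup N']
    [Module F N] [Module F' N'] (ψ : N →+ N') (h : ∀ c : F, ∃ c' : F', ∀ f, ψ (c • f) = c' • ψ f)
    (P : Submodule F N) [FiniteDimensional F P] :
    FiniteDimensional F' (Submodule.span F' (ψ '' P)) ∧
      finrank F' (Submodule.span F' (ψ '' P)) ≤ finrank F P := by
  let β := Module.finBasis F P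
  have := FiniteDimensional.span_of_finite F' (Set.finite_range fun i => ψ (β i))
  have hle : Submodule.span F' (ψ '' P) ≤ Submodule.span F' (Set.range fun i => ψ (β i)) := by
    refine Submodule.span_le.2 ?_
    rintro _ ⟨f, hf, rfl⟩
    have e := congrArg (fun z : P => ψ z) (β.sum_repr ⟨f, hf⟩)
    simp only [AddSubmonoidClass.coe_finsetSum, Submodule.coe_smul, map_sum] at e
    rw [← e]
    refine Submodule.sum_mem _ fun i _ => ?_
    obtain ⟨c, hc⟩ := h (β.repr ⟨f, hf⟩ i)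
    rw [hc]
    exact Submodule.smul_mem _ _ (Submodule.subset_span ⟨i, rfl⟩)
  exact ⟨Submodule.finiteDimensional_of_le hle, (Submodule.finrank_mono hle).trans
    ((finrank_range_le_card _).trans_eq (Fintype.card_fin _))⟩

end Pool.Agent.Lib.MP_bc213e_ag.SB.U
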