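import Pool.Agent.Lib.MP_bc213e_ag.SB.U.ME
import Pool.Agent.Lib.MP_bc213e_ag.DF.W
import Pool.Agent.Lib.MP_bc213e_ag.DB.GCD

/-! The base of the fibration is the smallest field over which the systems are bounded. -/

namespace Pool.Agent.Lib.MP_bc213e_ag.SB.U

open Pool.Agent.Lib.MP_bc213e_ag.DD Pool.Agent.Lib.MP_bc213e_ag.Jet MvPowerSeries Module
open scoped TensorProduct

variable {Ω E M : Type} [Field Ω] [Algebra ℂ Ω] [Field E] [Algebra ℂ E] [Algebra Ω E]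
  [IsScalarTower ℂ Ω E] [Field M] [Algebra ℂ M] [CharZero E]

theorem tay_Jet {b : ℕ} (ι : M →ₐ[ℂ] E) {D : Fin b → Derivation ℂ M M} (hD : Comm D)
    {s : Ω ⊗[ℂ] M} {j : ℕ} (h : s ∈ DA.Jet (DA.RD ℂ Ω M) (RingHom.ker (evT Ω ι)) j) :
    tayL Ω ι hD s ∈ Ord (Fin b) E j := by
  have key : ∀ (β : Fin b →₀ ℕ) (l : ℕ), l + β.degree ≤ j →
      dpow (comm_rder hD) β s ∈ DA.Jet (DA.RD ℂ Ω M) (RingHom.ker (evT Ω ι)) l := fun β => by
    induction β using deg_ind with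
    | h0 =>
      intro l hl
      rw [dpow_zero]
      exact DA.Jet_anti (le_self_add.trans hl) h
    | h1 β i ih =>
      intro l hl
      rw [map_add, Finsupp.degree_single] at hl
      rw [dpow_add_single]
      exact (ih (l + 1) (by omega)).2.2 _ ⟨_, rfl⟩
  exact fun β hβ => (coeff_tayL_eq_zero _ _ _ _).2 (DA.mem_Jet_one.1 (key β 1 (by omega)))

theorem alg_of_bd {U : ℕ → Submodule ℂ M} (F : Fib Ω E U) {𝕜 κ κ' : Type} [Field 𝕜] [Algebra ℂ 𝕜]
    [Algebra 𝕜 M] [IsScalarTower ℂ 𝕜 M] [Fintype κ] [Fintype κ'] (x : κ → M) (w : κ' → M)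
    (hw : ∀ i, ∃ c, w i ∈ DB.Bd 𝕜 x c) (gen : IntermediateField.adjoin 𝕜 (Set.range w) = ⊤)
    {d : ℕ} (dim : Algebra.trdeg 𝕜 M = d) (hU : ∀ a, ∀ f ∈ U a, f ∈ DB.Bd 𝕜 x a) {f : M}
    (hf : f ∈ F.k) : IsAlgebraic 𝕜 f := by
  have : CharZero 𝕜 := charZero_of_injective_algebraMap (algebraMap ℂ 𝕜).injective
  obtain ⟨y, h1, hy, -⟩ := DB.gcd x w hw gen dim
  obtain ⟨B, hB⟩ := DB.gcd_dim x w hw gen dim
  choose D hD using fun l : Fin d => KBA.W_der_basis hy fun i => if l = i then 1 else 0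
  have hc : Comm fun l => (D l).restrictScalars ℂ := fun c l g => sub_eq_zero.1
    (DA.der_eq_zero hy ⁅D c, D l⁆ (fun i => by
      rw [Derivation.commutator_apply, hD, hD]
      split_ifs <;> simp) g)
  let ψ : M →+* MvPowerSeries (Fin d) E :=
    (tayL Ω F.ι hc).toRingHom.comp
      (Algebra.TensorProduct.includeRight : M →ₐ[ℂ] Ω ⊗[ℂ] M).toRingHom
  have h2 : ∀ c : 𝕜, ψ (algebraMap 𝕜 M c) = C (F.ι (algebraMap 𝕜 M c)) := fun c =>
    (tay_const (comm_rder hc) (evT Ω F.ι).toRingHom (c := 1 ⊗ₜ _) fun i => by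
      rw [DA.rder_tmul, show (D i).restrictScalars ℂ (algebraMap 𝕜 M c) = 0 from
        (D i).map_algebraMap c, TensorProduct.tmul_zero]).trans (congrArg C (evT_one _ _))
  have h3 := fun a => @rk_span 𝕜 E _ _ _ _ _ _ _ _ ψ.toAddMonoidHom (fun c => ⟨_, fun g => by
    change ψ _ = _ • ψ g
    rw [Algebra.smul_def, map_mul, h2, smul_eq_C_mul]⟩) (DB.Bd 𝕜 x a) (hB a).1
  have h4 : ∀ a, (1 : M) ∈ DB.Bd 𝕜 x a := fun a => DB.Bd_mono x a.zero_le
    (DB.span_pow_le_Bd x 0 (by rw [pow_zero]; exact Submodule.one_le.1 le_rfl))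
  have h5 : ∀ a, (1 : MvPowerSeries (Fin d) E) ∈ Submodule.span E (ψ '' DB.Bd 𝕜 x a) := fun a =>
    Submodule.subset_span ⟨1, h4 a, map_one ψ⟩
  obtain ⟨g, hg⟩ := mult (fun a => Submodule.span E (ψ '' DB.Bd 𝕜 x a)) (fun a b u hu v hv => by
    refine Submodule.span_mono ?_
      ((Submodule.span_mul_span E _ _).le (Submodule.mul_mem_mul hu hv))
    rintro _ ⟨_, ⟨r, hr, rfl⟩, _, ⟨r', hr', rfl⟩, rfl⟩
    exact ⟨_, DB.mul_mem_Bd x hr hr', map_mul ψ _ _⟩) h5 (fun l => by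
      have e : ψ (y l) = C (evT Ω F.ι (1 ⊗ₜ y l)) + X l :=
        tay_coord (comm_rder hc) _ (u := 1 ⊗ₜ _) fun i => by
          rw [DA.rder_tmul, show (D i).restrictScalars ℂ (y l) = _ from hD i l]
          split_ifs
          exacts [rfl, TensorProduct.tmul_zero _ _]
      rw [eq_sub_of_add_eq' e.symm, ← mul_one (C _), ← smul_eq_C_mul]
      exact sub_mem (Submodule.subset_span ⟨_, DB.span_le_Bd x (h1 l), rfl⟩)
        (Submodule.smul_mem _ _ (h5 1))) (fun a => (h3 a).1) fun a => (h3 a).2.trans (hB a).2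
  obtain ⟨Z, r, N, hr, hZ, hN⟩ := F.large g
  have h6 : Ideal.span (Z : Set (Ω ⊗[ℂ] M)) ≤ RingHom.ker (tayL Ω F.ι hc) :=
    Ideal.span_le.2 fun s hs => by
      obtain ⟨a, ha, s1, s2⟩ := hZ s hs
      refine hg a ha _ ?_ (tay_Jet _ hc s2)
      have h7 := (map_baseChange' (tayL Ω F.ι hc).toLinearMap (U a)).le ⟨s, s1, rfl⟩
      refine (Submodule.span_le (p := (Submodule.span E (ψ '' DB.Bd 𝕜 x a)).restrictScalars Ω)).2
        ?_ h7
      rintro _ ⟨r, hr, rfl⟩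
      exact Submodule.subset_span ⟨r, hU a r hr, rfl⟩
  have h7 := h6 (hN _ (Ideal.pow_mem_pow (F.eps_mem hf) N))
  rw [RingHom.mem_ker, map_mul, map_pow, (isUnit_iff_constantCoeff.2
    (IsUnit.mk0 _ (by rwa [constantCoeff_tayL]))).mul_right_eq_zero] at h7
  have h8 : ∀ l, D l f = 0 := fun l => by
    have h9 := congrArg (fun z => constantCoeff (pderiv E l z)) (eq_zero_of_pow_eq_zero h7)
    simp only [pderiv_tayL, constantCoeff_tayL] at h9
    simpa using h9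
  by_contra h0
  obtain ⟨δ, hδ⟩ := KBA.exists_der_one h0
  have hs : ∀ v, (∑ l, δ (y l) • D l) v = ∑ l, δ (y l) * D l v := fun v =>
    (congrFun (map_sum (Derivation.coeFnAddMonoidHom (R := 𝕜) (A := M) (M := M))
      (fun l => δ (y l) • D l) Finset.univ) v).trans (Finset.sum_apply _ _ _)
  have h9 := DA.der_eq_zero hy (δ - ∑ l, δ (y l) • D l) (fun i => by simp [hs, hD]) f
  simp [hs, h8, hδ] at h9

end Pool.Agent.Lib.MP_bc213e_ag.SB.U
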